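import Pool.Agent.R475.EPB.Shift
import Pool.Agent.R595.EP.Defs

/-!
# Under the continuum hypothesis all ultrapowers of `(ℕ, ≤)` are isomorphic
-/

set_option autoImplicit false

namespace Pool.Agent.R475.EPB

open Set Cardinal Filter Pool.Agent.R595.EP

lemma eventually_ge {U : Ultrafilter ℕ} (hU : NonPr U) (n : ℕ) :
    ∀ᶠ i in (U : Filter ℕ), n ≤ i := by
  by_contra hc
  have h1 : {i | i < n} ∈ (U : Filter ℕ) := by
    have h2 : {i | n ≤ i} ∉ U := hc
    rw [← Ultrafilter.compl_mem_iff_notMem] at h2
    refine Filter.mem_of_superset h2 fun i hi => ?_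
    have hi : ¬ n ≤ i := hi
    exact not_le.1 hi
  obtain ⟨x, _, hx⟩ := Ultrafilter.eq_pure_of_finite_mem (Set.finite_lt_nat n) h1
  refine hU x ?_
  rw [hx]
  exact rfl

/-- countable saturation -/
lemma saturation {U : Ultrafilter ℕ} (hU : NonPr U) (Φ : ℕ → ℕ → ℕ → Prop)
    (h : ∀ n, ∀ᶠ i in (U : Filter ℕ), ∃ y, ∀ m ≤ n, Φ m i y) :
    ∃ g : ℕ → ℕ, ∀ n, ∀ᶠ i in (U : Filter ℕ), Φ n i (g i) := by
  classical
  let P : ℕ → ℕ → Prop := fun i k => ∃ y, ∀ m ≤ k, Φ m i y
  let K : ℕ → ℕ := fun i => Nat.findGreatest (P i) i
  have hg : ∀ i, ∃ y, P i (K i) → ∀ m ≤ K i, Φ m i y := by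
    intro i
    by_cases hP : P i (K i)
    · obtain ⟨y, hy⟩ := hP
      exact ⟨y, fun _ => hy⟩
    · exact ⟨0, fun h => absurd h hP⟩
  choose g hg using hg
  refine ⟨g, fun n => ?_⟩
  filter_upwards [h n, eventually_ge hU n] with i h1 h2
  have h3 : n ≤ K i := Nat.le_findGreatest h2 h1
  have h4 : P i (K i) := Nat.findGreatest_spec h2 h1
  exact hg i h4 n h3

/-- the ultrapower as a saturated discrete order -/
noncomputable def shGerm (U : Ultrafilter ℕ) (hU : NonPr U) : Sh (Germ (U : Filter ℕ) ℕ) where
  s n a := a.map (· + n)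
  s_zero a := by
    induction a using Germ.inductionOn with
    | _ f => rfl
  s_add m n a := by
    induction a using Germ.inductionOn with
    | _ f =>
      show ((fun i => f i + (m + n) : ℕ → ℕ) : Germ (U : Filter ℕ) ℕ) =
        ((fun i => f i + n + m : ℕ → ℕ) : Germ (U : Filter ℕ) ℕ)
      congr 1
      funext i
      omega
  lt_iff a b := by
    induction a using Germ.inductionOn with
    | _ f =>
      induction b using Germ.inductionOn with
      | _ g =>
        rw [Germ.coe_lt]
        exact Iff.rfl
  le_iff n a b := by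
    induction a using Germ.inductionOn with
    | _ f =>
      induction b using Germ.inductionOn with
      | _ g =>
        show ((fun i => f i + n : ℕ → ℕ) : Germ (U : Filter ℕ) ℕ) ≤
          ((fun i => g i + n : ℕ → ℕ) : Germ (U : Filter ℕ) ℕ) ↔ _
        rw [Germ.coe_le, Germ.coe_le]
        constructor
        · intro h
          filter_upwards [h] with i hi
          exact Nat.le_of_add_le_add_right hi
        · intro h
          filter_upwards [h] with i hi
          exact Nat.add_le_add_right hi n
  z := ((fun _ => 0 : ℕ → ℕ) : Germ (U : Filter ℕ) ℕ)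
  z_le a := by
    induction a using Germ.inductionOn with
    | _ f =>
      rw [Germ.coe_le]
      exact Eventually.of_forall fun i => Nat.zero_le _
  pred k a h := by
    induction a using Germ.inductionOn with
    | _ f =>
      refine ⟨((fun i => f i - k : ℕ → ℕ) : Germ (U : Filter ℕ) ℕ), ?_⟩
      show ((fun i => f i - k + k : ℕ → ℕ) : Germ (U : Filter ℕ) ℕ) = _
      rw [Germ.coe_eq]
      have h1 : ((fun _ => 0 + k : ℕ → ℕ) : Germ (U : Filter ℕ) ℕ) ≤ (f : Germ (U : Filter ℕ) ℕ) :=
        h
      rw [Germ.coe_le] at h1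
      filter_upwards [h1] with i hi
      have hi : 0 + k ≤ f i := hi
      show f i - k + k = f i
      omega
  sat L W hL hW hne h := by
    obtain ⟨l, rfl⟩ := hL.exists_eq_range hne
    have hrep : ∀ a : Germ (U : Filter ℕ) ℕ, ∃ f : ℕ → ℕ, (f : Germ (U : Filter ℕ) ℕ) = a :=
      fun a => Quotient.exists_rep a
    choose lf hlf using fun k => hrep (l k)
    by_cases hWne : W.Nonempty
    · obtain ⟨u, rfl⟩ := hW.exists_eq_range hWne
      choose uf huf using fun k => hrep (u k)
      have hlu : ∀ m m' n, ∀ᶠ i in (U : Filter ℕ), lf m i + n ≤ uf m' i := by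
        intro m m' n
        have h1 := h (l m) ⟨m, rfl⟩ (u m') ⟨m', rfl⟩ n
        rw [← hlf m, ← huf m'] at h1
        exact Germ.coe_le.1 h1
      obtain ⟨g, hg⟩ := saturation hU (fun n i y => (∀ m ≤ n, lf m i + n ≤ y) ∧
        ∀ m ≤ n, y + n ≤ uf m i) (by
          intro n
          have h1 : ∀ᶠ i in (U : Filter ℕ), ∀ m ∈ {m | m ≤ n}, ∀ m' ∈ {m | m ≤ n},
              lf m i + 2 * n ≤ uf m' i := by
            rw [eventually_all_finite (Set.finite_le_nat n)]
            intro m _
            rw [eventually_all_finite (Set.finite_le_nat n)]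
            intro m' _
            exact hlu m m' (2 * n)
          filter_upwards [h1] with i hi
          refine ⟨(Finset.range (n + 1)).sup (fun m => lf m i) + n, fun k hk => ⟨?_, ?_⟩⟩
          · intro m hm
            have h2 : lf m i ≤ (Finset.range (n + 1)).sup (fun m => lf m i) :=
              Finset.le_sup (f := fun m => lf m i) (Finset.mem_range.2 (by omega))
            omega
          · intro m hm
            have h2 : (Finset.range (n + 1)).sup (fun m => lf m i) ≤ uf m i - 2 * n := by
              refine Finset.sup_le fun m0 hm0 => ?_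
              have h3 := hi m0 (by
                have := Finset.mem_range.1 hm0
                show m0 ≤ n
                omega) m (show m ≤ n by omega)
              omega
            have h3 := hi 0 (Nat.zero_le _) m (show m ≤ n by omega)
            omega)
      refine ⟨(g : Germ (U : Filter ℕ) ℕ), ?_, ?_⟩
      · rintro _ ⟨k, rfl⟩ n
        rw [← hlf k]
        refine Germ.coe_le.2 ?_
        filter_upwards [hg (max k n)] with i hi
        have h1 := hi.1 k (le_max_left _ _)
        show lf k i + n ≤ g i
        omega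
      · rintro _ ⟨k, rfl⟩ n
        rw [← huf k]
        refine Germ.coe_le.2 ?_
        filter_upwards [hg (max k n)] with i hi
        have h1 := hi.2 k (le_max_left _ _)
        show g i + n ≤ uf k i
        omega
    · obtain ⟨g, hg⟩ := saturation hU (fun n i y => ∀ m ≤ n, lf m i + n ≤ y) (by
          intro n
          refine Eventually.of_forall fun i => ?_
          refine ⟨(Finset.range (n + 1)).sup (fun m => lf m i) + n, fun k hk m hm => ?_⟩
          have h2 : lf m i ≤ (Finset.range (n + 1)).sup (fun m => lf m i) :=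
            Finset.le_sup (f := fun m => lf m i) (Finset.mem_range.2 (by omega))
          omega)
      refine ⟨(g : Germ (U : Filter ℕ) ℕ), ?_, fun u hu => absurd ⟨u, hu⟩ hWne⟩
      rintro _ ⟨k, rfl⟩ n
      rw [← hlf k]
      refine Germ.coe_le.2 ?_
      filter_upwards [hg (max k n)] with i hi
      have h1 := hi k (le_max_left _ _)
      show lf k i + n ≤ g i
      omega

lemma mk_germ (U : Ultrafilter ℕ) : #(Germ (U : Filter ℕ) ℕ) ≤ continuum := by
  refine (mk_quotient_le).trans ?_
  simp

end Pool.Agent.R475.EPB
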