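import Pool.Agent.W910.Hull.MATools
import Pool.Agent.H3R3.Rigid.Rec

/-!
# Back and forth for saturated discrete linear orders
-/

set_option autoImplicit false

namespace Pool.Agent.R475.EPB

open Set Cardinal Pool.Agent.H3R3.Rigid
open Pool.Agent.W910.Hull (countable_Iic mk_Om1)

/-- countably saturated discrete linear orders with a least element -/
structure Sh (A : Type) [LinearOrder A] where
  s : ℕ → A → A
  s_zero : ∀ a, s 0 a = a
  s_add : ∀ m n a, s (m + n) a = s m (s n a)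
  lt_iff : ∀ a b, a < b ↔ s 1 a ≤ b
  le_iff : ∀ n a b, s n a ≤ s n b ↔ a ≤ b
  z : A
  z_le : ∀ a, z ≤ a
  pred : ∀ k a, s k z ≤ a → ∃ b, s k b = a
  sat : ∀ L U : Set A, L.Countable → U.Countable → L.Nonempty →
    (∀ l ∈ L, ∀ u ∈ U, ∀ n, s n l ≤ u) →
    ∃ y, (∀ l ∈ L, ∀ n, s n l ≤ y) ∧ ∀ u ∈ U, ∀ n, s n y ≤ u

section One

variable {A : Type} [LinearOrder A] (S : Sh A)

lemma Sh.le_s (n : ℕ) (a : A) : a ≤ S.s n a := by
  induction n with
  | zero => rw [S.s_zero]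
  | succ n ih =>
    rw [Nat.add_comm, S.s_add]
    exact ih.trans ((S.lt_iff _ _).2 le_rfl).le

lemma Sh.lt_succ (n : ℕ) (a b : A) : ¬ S.s n a ≤ b ↔ S.s 1 b ≤ S.s n a := by
  rw [not_le, S.lt_iff]

lemma Sh.near_or_far {a b : A} (h : a ≤ b) : (∃ k, b = S.s k a) ∨ ∀ k, S.s k a ≤ b := by
  by_cases hf : ∀ k, S.s k a ≤ b
  · exact Or.inr hf
  · left
    push Not at hf
    classical
    have hfind := Nat.find_spec hf
    have hmin := fun m => Nat.find_min hf (m := m)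
    obtain ⟨k, hk⟩ : ∃ k, Nat.find hf = k + 1 := by
      refine Nat.exists_eq_succ_of_ne_zero fun h0 => ?_
      rw [h0, S.s_zero] at hfind
      exact absurd h (not_le.2 hfind)
    refine ⟨k, le_antisymm ?_ ?_⟩
    · rw [hk, Nat.add_comm, S.s_add] at hfind
      by_contra hc
      rw [not_le, S.lt_iff] at hc
      exact absurd hc (not_le.2 hfind)
    · exact not_lt.1 (hmin k (by omega))

end One

variable {A B : Type} [LinearOrder A] [LinearOrder B] (S : Sh A) (T : Sh B)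

/-- partial maps which preserve the order and finite distances -/
def Good (R : Set (A × B)) : Prop :=
  (S.z, T.z) ∈ R ∧ ∀ p ∈ R, ∀ q ∈ R, ∀ n, S.s n p.1 ≤ q.1 ↔ T.s n p.2 ≤ q.2

variable {S T}

lemma Good.iff {R : Set (A × B)} (h : Good S T R) {p q : A × B} (hp : p ∈ R) (hq : q ∈ R)
    (m n : ℕ) : S.s m p.1 ≤ S.s n q.1 ↔ T.s m p.2 ≤ T.s n q.2 := by
  rcases le_total n m with hnm | hnm
  · obtain ⟨k, rfl⟩ := Nat.exists_eq_add_of_le hnm
    rw [S.s_add, T.s_add, S.le_iff, T.le_iff]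
    exact h.2 p hp q hq k
  · obtain ⟨k, rfl⟩ := Nat.exists_eq_add_of_le hnm
    rw [S.s_add, T.s_add, S.le_iff, T.le_iff]
    rw [← not_iff_not, not_le, not_le, S.lt_iff, T.lt_iff, ← S.s_add, ← T.s_add]
    exact h.2 q hq p hp (1 + k)

lemma Good.extend {R : Set (A × B)} (h : Good S T R) (hc : R.Countable) (x : A) :
    ∃ y, Good S T (insert (x, y) R) := by
  -- it is enough to compare with the members of `R`
  suffices hs : ∃ y, ∀ q ∈ R, ∀ n, (S.s n q.1 ≤ x ↔ T.s n q.2 ≤ y) ∧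
      (S.s n x ≤ q.1 ↔ T.s n y ≤ q.2) by
    obtain ⟨y, hy⟩ := hs
    refine ⟨y, Or.inr h.1, ?_⟩
    rintro p (rfl | hp) q (rfl | hq) n
    · have h1 : S.s n x ≤ x ↔ n = 0 := by
        constructor
        · intro h1
          by_contra hn
          obtain ⟨m, rfl⟩ := Nat.exists_eq_succ_of_ne_zero hn
          have h2 : x < S.s 1 x := (S.lt_iff _ _).2 le_rfl
          have h3 : S.s 1 x ≤ S.s (m + 1) x := by
            rw [S.s_add]; exact S.le_s m _
          exact absurd (h3.trans h1) (not_le.2 h2)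
        · rintro rfl
          rw [S.s_zero]
      have h1' : T.s n y ≤ y ↔ n = 0 := by
        constructor
        · intro h1
          by_contra hn
          obtain ⟨m, rfl⟩ := Nat.exists_eq_succ_of_ne_zero hn
          have h2 : y < T.s 1 y := (T.lt_iff _ _).2 le_rfl
          have h3 : T.s 1 y ≤ T.s (m + 1) y := by
            rw [T.s_add]; exact T.le_s m _
          exact absurd (h3.trans h1) (not_le.2 h2)
        · rintro rfl
          rw [T.s_zero]
      exact h1.trans h1'.symm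
    · exact (hy q hq n).2
    · exact (hy p hp n).1
    · exact h.2 p hp q hq n
  by_cases h1 : ∃ p ∈ R, ∃ k, x = S.s k p.1
  · obtain ⟨p, hp, k, rfl⟩ := h1
    refine ⟨T.s k p.2, fun q hq n => ⟨h.iff hq hp n k, ?_⟩⟩
    rw [← S.s_add, ← T.s_add]
    exact h.2 p hp q hq _
  by_cases h2 : ∃ p ∈ R, ∃ k, S.s k x = p.1
  · obtain ⟨p, hp, k, hk⟩ := h2
    have h3 : S.s k S.z ≤ p.1 := by
      rw [← hk, S.le_iff]; exact S.z_le x
    obtain ⟨y, hy⟩ := T.pred k p.2 ((h.2 _ h.1 p hp k).1 h3)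
    refine ⟨y, fun q hq n => ⟨?_, ?_⟩⟩
    · rw [← S.le_iff k, ← T.le_iff k, hk, hy, ← S.s_add, ← T.s_add]
      exact h.2 q hq p hp _
    · rw [← S.le_iff k, ← T.le_iff k, ← S.s_add, ← T.s_add, Nat.add_comm k n, S.s_add, T.s_add,
        hk, hy]
      exact h.iff hp hq n k
  push Not at h1 h2
  have hfar : ∀ p ∈ R, (p.1 < x ∧ ∀ n, S.s n p.1 ≤ x) ∨ (x < p.1 ∧ ∀ n, S.s n x ≤ p.1) := by
    intro p hp
    rcases lt_trichotomy p.1 x with hlt | heq | hgt
    · left
      refine ⟨hlt, ?_⟩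
      rcases S.near_or_far hlt.le with ⟨k, hk⟩ | hf
      · exact absurd hk (h1 p hp k)
      · exact hf
    · exact absurd (by rw [S.s_zero]; exact heq.symm) (h1 p hp 0)
    · right
      refine ⟨hgt, ?_⟩
      rcases S.near_or_far hgt.le with ⟨k, hk⟩ | hf
      · exact absurd hk.symm (h2 p hp k)
      · exact hf
  have hz : S.z < x := by
    rcases hfar _ h.1 with h3 | h3
    · exact h3.1
    · exact absurd h3.1 (not_lt.2 (S.z_le x))
  obtain ⟨y, hy1, hy2⟩ := T.sat ((fun p : A × B => p.2) '' {p | p ∈ R ∧ p.1 < x})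
    ((fun p : A × B => p.2) '' {p | p ∈ R ∧ x < p.1})
    ((hc.mono fun p hp => hp.1).image _) ((hc.mono fun p hp => hp.1).image _)
    ⟨_, _, ⟨h.1, hz⟩, rfl⟩ (by
      rintro _ ⟨p, ⟨hp, hpx⟩, rfl⟩ _ ⟨q, ⟨hq, hqx⟩, rfl⟩ n
      refine (h.2 p hp q hq n).1 ?_
      rcases hfar p hp with h3 | h3
      · exact (h3.2 n).trans hqx.le
      · exact absurd h3.1 (not_lt.2 hpx.le))
  refine ⟨y, fun q hq n => ?_⟩
  rcases hfar q hq with h3 | h3
  · have h4 : ∀ m, T.s m q.2 ≤ y := fun m => hy1 _ ⟨q, ⟨hq, h3.1⟩, rfl⟩ m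
    refine ⟨⟨fun _ => h4 n, fun _ => h3.2 n⟩, ⟨fun h5 => ?_, fun h5 => ?_⟩⟩
    · exact absurd ((S.le_s n x).trans h5) (not_le.2 h3.1)
    · have h6 : q.2 < y := (T.lt_iff _ _).2 (h4 1)
      exact absurd ((T.le_s n y).trans h5) (not_le.2 h6)
  · have h4 : ∀ m, T.s m y ≤ q.2 := fun m => hy2 _ ⟨q, ⟨hq, h3.1⟩, rfl⟩ m
    refine ⟨⟨fun h5 => ?_, fun h5 => ?_⟩, ⟨fun _ => h4 n, fun _ => h3.2 n⟩⟩
    · exact absurd ((S.le_s n q.1).trans h5) (not_le.2 h3.1)
    · have h6 : y < q.2 := (T.lt_iff _ _).2 (h4 1)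
      exact absurd ((T.le_s n q.2).trans h5) (not_le.2 h6)

/-- the inverse relation -/
def inv (R : Set (A × B)) : Set (B × A) := {p | (p.2, p.1) ∈ R}

lemma Good.inv {R : Set (A × B)} (h : Good S T R) : Good T S (inv R) :=
  ⟨h.1, fun p hp q hq n => (h.2 _ hp _ hq n).symm⟩

lemma Good.extend' {R : Set (A × B)} (h : Good S T R) (hc : R.Countable) (y : B) :
    ∃ x, Good S T (insert (x, y) R) := by
  have hc' : (EPB.inv R).Countable := by
    have : EPB.inv R = Prod.swap '' R := by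
      ext p
      constructor
      · intro hp
        exact ⟨(p.2, p.1), hp, rfl⟩
      · rintro ⟨q, hq, rfl⟩
        exact hq
    rw [this]
    exact hc.image _
  obtain ⟨x, hx⟩ := h.inv.extend hc' y
  refine ⟨x, ?_⟩
  have h1 := hx.inv
  have h2 : EPB.inv (insert (y, x) (EPB.inv R)) = insert (x, y) R := by
    ext p
    simp only [EPB.inv, mem_ofPred_eq, mem_insert_iff, Prod.ext_iff]
    constructor
    · rintro (h3 | h3)
      · exact Or.inl ⟨h3.2, h3.1⟩
      · exact Or.inr h3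
    · rintro (h3 | h3)
      · exact Or.inl ⟨h3.2, h3.1⟩
      · exact Or.inr h3
  rwa [h2] at h1

/-- Two countably saturated discrete linear orders of cardinality at most `ℵ₁` are isomorphic. -/
theorem exists_iso (S : Sh A) (T : Sh B) (hA : #A ≤ ℵ₁) (hB : #B ≤ ℵ₁) : Nonempty (A ≃o B) := by
  classical
  let Om : Type := (ℵ₁ : Cardinal.{0}).ord.ToType
  have enum : ∀ (X : Type), Nonempty X → #X ≤ ℵ₁ → ∃ e : Om → X, Function.Surjective e := by
    intro X _ hX
    rw [← mk_Om1] at hX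
    obtain ⟨g⟩ := hX
    exact ⟨Function.invFun g, Function.invFun_surjective g.injective⟩
  obtain ⟨ea, hea⟩ := enum A ⟨S.z⟩ hA
  obtain ⟨eb, heb⟩ := enum B ⟨T.z⟩ hB
  let Q : (i : Om) → (∀ j, j < i → Set (A × B)) → Set (A × B) → Prop := fun i g R =>
    ((∀ j hj, Good S T (g j hj) ∧ (g j hj).Countable) ∧
      ∀ j hj j' hj', j ≤ j' → g j hj ⊆ g j' hj') →
    (Good S T R ∧ R.Countable ∧ (∀ j hj, g j hj ⊆ R) ∧ (∃ y, (ea i, y) ∈ R) ∧
      ∃ x, (x, eb i) ∈ R)
  have hQ : ∀ i g, ∃ R, Q i g R := by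
    intro i g
    by_cases hg : (∀ j hj, Good S T (g j hj) ∧ (g j hj).Countable) ∧
      ∀ j hj j' hj', j ≤ j' → g j hj ⊆ g j' hj'
    · let R0 : Set (A × B) := insert (S.z, T.z) (⋃ j : Iio i, g j.1 j.2)
      have hR0c : R0.Countable := by
        have : Countable (Iio i) := ((countable_Iic i).mono Iio_subset_Iic_self).to_subtype
        exact (countable_iUnion fun j : Iio i => (hg.1 j.1 j.2).2).insert _
      have hR0 : Good S T R0 := by
        refine ⟨Or.inl rfl, ?_⟩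
        have hzz : ∀ n, S.s n S.z ≤ S.z ↔ T.s n T.z ≤ T.z := by
          intro n
          have h1 : ∀ {X : Type} [LinearOrder X] (W : Sh X), W.s n W.z ≤ W.z ↔ n = 0 := by
            intro X _ W
            constructor
            · intro h1
              by_contra hn
              obtain ⟨m, rfl⟩ := Nat.exists_eq_succ_of_ne_zero hn
              have h2 : W.z < W.s 1 W.z := (W.lt_iff _ _).2 le_rfl
              have h3 : W.s 1 W.z ≤ W.s (m + 1) W.z := by
                rw [W.s_add]; exact W.le_s m _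
              exact absurd (h3.trans h1) (not_le.2 h2)
            · rintro rfl
              rw [W.s_zero]
          rw [h1, h1]
        rintro p (rfl | hp) q (rfl | hq) n
        · exact hzz n
        · obtain ⟨j, hj⟩ := mem_iUnion.1 hq
          exact (hg.1 j.1 j.2).1.2 _ (hg.1 j.1 j.2).1.1 _ hj n
        · obtain ⟨j, hj⟩ := mem_iUnion.1 hp
          exact (hg.1 j.1 j.2).1.2 _ hj _ (hg.1 j.1 j.2).1.1 n
        · obtain ⟨j, hj⟩ := mem_iUnion.1 hp
          obtain ⟨j', hj'⟩ := mem_iUnion.1 hq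
          rcases le_total j.1 j'.1 with hle | hle
          · exact (hg.1 j'.1 j'.2).1.2 _ (hg.2 _ j.2 _ j'.2 hle hj) _ hj' n
          · exact (hg.1 j.1 j.2).1.2 _ hj _ (hg.2 _ j'.2 _ j.2 hle hj') n
      obtain ⟨y, hy⟩ := hR0.extend hR0c (ea i)
      obtain ⟨x, hx⟩ := hy.extend' (hR0c.insert _) (eb i)
      refine ⟨_, fun _ => ⟨hx, (hR0c.insert _).insert _, fun j hj p hp => ?_,
        ⟨y, Or.inr (Or.inl rfl)⟩, ⟨x, Or.inl rfl⟩⟩⟩
      exact Or.inr (Or.inr (Or.inr (mem_iUnion.2 ⟨⟨j, hj⟩, hp⟩)))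
    · exact ⟨∅, fun h => absurd h hg⟩
  obtain ⟨R, hR⟩ := exists_rec (r := fun a b : Om => a < b) wellFounded_lt Q hQ
  have key : ∀ i, Good S T (R i) ∧ (R i).Countable ∧ (∀ j < i, R j ⊆ R i) ∧
      (∃ y, (ea i, y) ∈ R i) ∧ ∃ x, (x, eb i) ∈ R i := by
    intro i
    induction i using WellFoundedLT.induction with
    | ind i ih =>
      refine hR i ⟨fun j hj => ⟨(ih j hj).1, (ih j hj).2.1⟩, fun j hj j' hj' hle => ?_⟩
      rcases hle.lt_or_eq with h | rfl
      · exact (ih j' hj').2.2.1 j h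
      · exact Subset.rfl
  have hmono : ∀ i j, i ≤ j → R i ⊆ R j := by
    intro i j hle
    rcases hle.lt_or_eq with h | rfl
    · exact (key j).2.2.1 i h
    · exact Subset.rfl
  have hall : ∀ p q : A × B, (∃ i, p ∈ R i) → (∃ i, q ∈ R i) → (p.1 ≤ q.1 ↔ p.2 ≤ q.2) := by
    rintro p q ⟨i, hi⟩ ⟨j, hj⟩
    have h1 := (key (max i j)).1.2 p (hmono i _ (le_max_left _ _) hi) q
      (hmono j _ (le_max_right _ _) hj) 0
    rwa [S.s_zero, T.s_zero] at h1
  have hf : ∀ a, ∃ b, ∃ i, (a, b) ∈ R i := by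
    intro a
    obtain ⟨i, rfl⟩ := hea a
    obtain ⟨y, hy⟩ := (key i).2.2.2.1
    exact ⟨y, i, hy⟩
  choose f hf using hf
  have hle : ∀ a a', f a ≤ f a' ↔ a ≤ a' := fun a a' => (hall (a, f a) (a', f a') (hf a) (hf a')).symm
  have hinj : Function.Injective f := fun a a' h => le_antisymm ((hle _ _).1 h.le)
    ((hle _ _).1 h.ge)
  have hsurj : Function.Surjective f := by
    intro b
    obtain ⟨i, rfl⟩ := heb b
    obtain ⟨x, hx⟩ := (key i).2.2.2.2
    refine ⟨x, le_antisymm ?_ ?_⟩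
    · exact (hall (x, f x) (x, eb i) (hf x) ⟨i, hx⟩).1 le_rfl
    · exact (hall (x, eb i) (x, f x) ⟨i, hx⟩ (hf x)).1 le_rfl
  exact ⟨{ Equiv.ofBijective f ⟨hinj, hsurj⟩ with map_rel_iff' := fun {a b} => hle a b }⟩

end Pool.Agent.R475.EPB
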