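import Pool.Agent.R595.EP.Defs

/-!
# Transfer between `ℕ+` and elementarily equivalent structures
-/

set_option autoImplicit false

universe w

namespace Pool.Agent.R475.EPB

open FirstOrder FirstOrder.Language Cardinal Pool.Agent.R595.EP

/-- the symbols -/
def relLt : Full.Relations 2 := ({v | v 0 < v 1} : Set (Fin 2 → ℕ+))
def rel1 (A : Set ℕ+) : Full.Relations 1 := ({v | v 0 ∈ A} : Set (Fin 1 → ℕ+))
def fn1 (f : ℕ+ → ℕ+) : Full.Functions 1 := fun v : Fin 1 → ℕ+ => f (v 0)
def fnPow : Full.Functions 2 := fun v : Fin 2 → ℕ+ => v 0 ^ (v 1 : ℕ)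

abbrev Tm : Type := Full.Term (Empty ⊕ Fin 3)

def X (i : Fin 3) : Tm := Term.var (Sum.inr i)
def tF (f : ℕ+ → ℕ+) (t : Tm) : Tm := (fn1 f).apply₁ t
def tPow (s t : Tm) : Tm := fnPow.apply₂ s t
def fLt (s t : Tm) : Full.BoundedFormula Empty 3 := relLt.boundedFormula₂ s t
def fMem (A : Set ℕ+) (t : Tm) : Full.BoundedFormula Empty 3 := (rel1 A).boundedFormula₁ t

section
variable {N : Type w} [Full.Structure N] (v : Fin 3 → N)

/-- the value of a term -/
def ev (t : Tm) : N := t.realize (Sum.elim Empty.elim v)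

lemma ev_X (i : Fin 3) : ev v (X i) = v i := rfl

lemma ev_tF (f : ℕ+ → ℕ+) (t : Tm) : ev v (tF f t) = starF N f (ev v t) := by
  unfold ev tF starF
  rw [Term.realize_functions_apply₁]
  rfl

lemma ev_tPow (s t : Tm) : ev v (tPow s t) = pow N (ev v s) (ev v t) := by
  unfold ev tPow pow
  rw [Term.realize_functions_apply₂]
  rfl

lemma re_lt (s t : Tm) : (fLt s t).Realize Empty.elim v ↔ lt N (ev v s) (ev v t) := by
  unfold fLt
  rw [BoundedFormula.realize_rel₂]
  rfl

lemma re_mem (A : Set ℕ+) (t : Tm) : (fMem A t).Realize Empty.elim v ↔ ev v t ∈ star N A := by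
  unfold fMem
  rw [BoundedFormula.realize_rel₁]
  rfl

end

theorem transfer {M : Type w} [Full.Structure M] (h : Full.ElementarilyEquivalent M ℕ+)
    (φ : Full.BoundedFormula Empty 3) (hN : ∀ v : Fin 3 → ℕ+, φ.Realize Empty.elim v)
    (v : Fin 3 → M) : φ.Realize Empty.elim v := by
  have hd : ∀ (N : Type w) (d : Empty → N), d = Empty.elim := fun N d => funext fun e => e.elim
  have hd' : ∀ d : Empty → ℕ+, d = Empty.elim := fun d => funext fun e => e.elim
  have h1 := (elementarilyEquivalent_iff.1 h φ.alls).2 (BoundedFormula.realize_alls.2 fun xs => by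
    have key : ∀ d : Empty → ℕ+, φ.Realize d xs := fun d => by
      rw [hd' d]
      exact hN xs
    exact key _)
  have h3 := BoundedFormula.realize_alls.1 h1 v
  have key : ∀ d : Empty → M, φ.Realize d v → φ.Realize Empty.elim v := fun d h => by
    rw [hd M d] at h
    exact h
  exact key _ h3

lemma n_lt (a b : ℕ+) : lt ℕ+ a b ↔ a < b := Iff.rfl
lemma n_mem (A : Set ℕ+) (a : ℕ+) : a ∈ star ℕ+ A ↔ a ∈ A := Iff.rfl
lemma n_F (f : ℕ+ → ℕ+) (a : ℕ+) : starF ℕ+ f a = f a := rfl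
lemma n_pow (a b : ℕ+) : pow ℕ+ a b = a ^ (b : ℕ) := rfl

section Facts

variable {M : Type w} [Full.Structure M] (h : Full.ElementarilyEquivalent M ℕ+)
include h

lemma lt_irrefl' (x : M) : ¬ lt M x x := by
  have h1 := transfer h (fLt (X 0) (X 0)).not (fun v => by
    simp only [BoundedFormula.realize_not, re_lt, ev_X, n_lt]
    exact lt_irrefl _) ![x, x, x]
  simp only [BoundedFormula.realize_not, re_lt, ev_X, Matrix.cons_val_zero] at h1
  exact h1

lemma lt_trans' (x y z : M) (h1 : lt M x y) (h2 : lt M y z) : lt M x z := by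
  have h3 := transfer h ((fLt (X 0) (X 1)).imp ((fLt (X 1) (X 2)).imp (fLt (X 0) (X 2))))
    (fun v => by
      simp only [BoundedFormula.realize_imp, re_lt, ev_X, n_lt]
      exact fun h1 h2 => h1.trans h2) ![x, y, z]
  simp only [BoundedFormula.realize_imp, re_lt, ev_X] at h3
  exact h3 h1 h2

lemma lt_tri (x y : M) : lt M x y ∨ x = y ∨ lt M y x := by
  have h3 := transfer h ((fLt (X 0) (X 1)).not.imp ((fLt (X 1) (X 0)).not.imp
      ((X 0).bdEqual (X 1))))
    (fun v => by
      simp only [BoundedFormula.realize_imp, BoundedFormula.realize_not, re_lt, ev_X, n_lt,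
        BoundedFormula.realize_bdEqual]
      intro h1 h2
      exact le_antisymm (not_lt.1 h2) (not_lt.1 h1)) ![x, y, y]
  simp only [BoundedFormula.realize_imp, BoundedFormula.realize_not, re_lt, ev_X,
    BoundedFormula.realize_bdEqual] at h3
  by_cases h1 : lt M x y
  · exact Or.inl h1
  · by_cases h2 : lt M y x
    · exact Or.inr (Or.inr h2)
    · exact Or.inr (Or.inl (h3 h1 h2))

lemma le_trans' (x y z : M) (h1 : ¬ lt M y x) (h2 : ¬ lt M z y) : ¬ lt M z x := by
  intro h3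
  rcases lt_tri h x y with h4 | rfl | h4
  · exact h2 (lt_trans' h _ _ _ h3 h4)
  · exact h2 h3
  · exact h1 h4

lemma star_inter (A B : Set ℕ+) (x : M) : x ∈ star M (A ∩ B) ↔ x ∈ star M A ∧ x ∈ star M B := by
  have h3 := transfer h ((fMem (A ∩ B) (X 0)).iff ((fMem A (X 0)) ⊓ (fMem B (X 0))))
    (fun v => by
      simp only [BoundedFormula.realize_iff, BoundedFormula.realize_inf, re_mem, ev_X, n_mem]
      exact Iff.rfl) ![x, x, x]
  simp only [BoundedFormula.realize_iff, BoundedFormula.realize_inf, re_mem, ev_X] at h3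
  exact h3

lemma star_compl (A : Set ℕ+) (x : M) : x ∈ star M Aᶜ ↔ x ∉ star M A := by
  have h3 := transfer h ((fMem Aᶜ (X 0)).iff (fMem A (X 0)).not)
    (fun v => by
      simp only [BoundedFormula.realize_iff, BoundedFormula.realize_not, re_mem, ev_X, n_mem]
      exact Iff.rfl) ![x, x, x]
  simp only [BoundedFormula.realize_iff, BoundedFormula.realize_not, re_mem, ev_X] at h3
  exact h3

lemma star_const {A : Set ℕ+} {n : ℕ+} (hn : n ∈ A) (x : M) : starF M (fun _ => n) x ∈ star M A := by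
  have h3 := transfer h (fMem A (tF (fun _ => n) (X 0)))
    (fun v => by
      simp only [re_mem, ev_X, ev_tF, n_mem, n_F]
      exact hn) ![x, x, x]
  simp only [re_mem, ev_X, ev_tF] at h3
  exact h3

lemma one_le' (p x : M) : ¬ lt M x (starF M (fun _ => 1) p) := by
  have h3 := transfer h (fLt (X 1) (tF (fun _ => 1) (X 0))).not
    (fun v => by
      simp only [BoundedFormula.realize_not, re_lt, ev_X, ev_tF, n_lt, n_F]
      exact not_lt.2 one_le) ![p, x, x]
  simp only [BoundedFormula.realize_not, re_lt, ev_X, ev_tF] at h3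
  exact h3

lemma fun_le (f g : ℕ+ → ℕ+) (p : M) :
    ¬ lt M (starF M g p) (starF M f p) ↔ p ∈ star M {q | f q ≤ g q} := by
  have h3 := transfer h ((fLt (tF g (X 0)) (tF f (X 0))).not.iff (fMem {q | f q ≤ g q} (X 0)))
    (fun v => by
      simp only [BoundedFormula.realize_iff, BoundedFormula.realize_not, re_lt, re_mem, ev_X,
        ev_tF, n_lt, n_F, n_mem]
      exact not_lt) ![p, p, p]
  simp only [BoundedFormula.realize_iff, BoundedFormula.realize_not, re_lt, re_mem, ev_X,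
    ev_tF] at h3
  exact h3

/-- the least exponent -/
noncomputable def expo (A : Set ℕ+) (q : ℕ+) : ℕ+ :=
  letI := Classical.dec (∃ k : ℕ+, q ^ (k : ℕ) ∈ A)
  letI := Classical.decPred (fun k : ℕ+ => q ^ (k : ℕ) ∈ A)
  if hk : ∃ k : ℕ+, q ^ (k : ℕ) ∈ A then PNat.find hk else 1

omit h in
lemma pow_mem_iff {A : Set ℕ+} (hA : UpClosed A) (q x : ℕ+) :
    q ^ (x : ℕ) ∈ A ↔ q ∈ {q : ℕ+ | ∃ k : ℕ+, q ^ (k : ℕ) ∈ A} ∧ ¬ x < expo A q := by
  classical
  constructor
  · intro hx
    have hk : ∃ k : ℕ+, q ^ (k : ℕ) ∈ A := ⟨x, hx⟩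
    refine ⟨hk, ?_⟩
    rw [not_lt]
    unfold expo
    rw [dif_pos hk]
    exact PNat.find_min' _ hx
  · rintro ⟨hk, hx⟩
    have hk : ∃ k : ℕ+, q ^ (k : ℕ) ∈ A := hk
    rw [not_lt] at hx
    unfold expo at hx
    rw [dif_pos hk] at hx
    refine hA _ (PNat.find_spec hk) _ ?_
    exact pow_dvd_pow q (by exact_mod_cast hx)

lemma pow_star {A : Set ℕ+} (hA : UpClosed A) (p x : M) :
    pow M p x ∈ star M A ↔ p ∈ star M {q : ℕ+ | ∃ k : ℕ+, q ^ (k : ℕ) ∈ A} ∧
      ¬ lt M x (starF M (expo A) p) := by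
  have h3 := transfer h ((fMem A (tPow (X 0) (X 1))).iff
      ((fMem {q : ℕ+ | ∃ k : ℕ+, q ^ (k : ℕ) ∈ A} (X 0)) ⊓
        (fLt (X 1) (tF (expo A) (X 0))).not))
    (fun v => by
      simp only [BoundedFormula.realize_iff, BoundedFormula.realize_inf,
        BoundedFormula.realize_not, re_lt, re_mem, ev_X, ev_tF, ev_tPow, n_lt, n_F, n_mem, n_pow]
      exact pow_mem_iff hA _ _) ![p, x, x]
  simp only [BoundedFormula.realize_iff, BoundedFormula.realize_inf,
    BoundedFormula.realize_not, re_lt, re_mem, ev_X, ev_tF, ev_tPow] at h3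
  exact h3

/-- the multiples of `q ^ f q`, `q` a prime -/
def Mult (f : ℕ+ → ℕ+) : Set ℕ+ := {m | ∃ q ∈ Primes, q ^ (f q : ℕ) ∣ m}

omit h in
lemma mult_up (f : ℕ+ → ℕ+) : UpClosed (Mult f) := by
  rintro a ⟨q, hq, hd⟩ m hm
  exact ⟨q, hq, hd.trans hm⟩

omit h in
lemma pow_mem_mult (f : ℕ+ → ℕ+) {p : ℕ+} (hp : p ∈ Primes) (x : ℕ+) :
    p ^ (x : ℕ) ∈ Mult f ↔ ¬ x < f p := by
  have hp' : (p : ℕ).Prime := hp
  constructor
  · rintro ⟨q, hq, hd⟩
    have hq' : (q : ℕ).Prime := hq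
    rw [PNat.dvd_iff, PNat.pow_coe, PNat.pow_coe] at hd
    have h1 : (q : ℕ) ∣ (p : ℕ) ^ (x : ℕ) :=
      (dvd_pow_self _ (f q).ne_zero).trans hd
    have h2 : (q : ℕ) = p := (Nat.prime_dvd_prime_iff_eq hq' hp').1 (hq'.dvd_of_dvd_pow h1)
    have h3 : q = p := PNat.eq h2
    subst h3
    rw [Nat.pow_dvd_pow_iff_le_right hq'.one_lt] at hd
    rw [not_lt]
    exact_mod_cast hd
  · intro hx
    rw [not_lt] at hx
    exact ⟨p, hp, pow_dvd_pow p (by exact_mod_cast hx)⟩

lemma mult_star (f : ℕ+ → ℕ+) {p : M} (hp : p ∈ star M Primes) (x : M) :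
    pow M p x ∈ star M (Mult f) ↔ ¬ lt M x (starF M f p) := by
  have h3 := transfer h ((fMem Primes (X 0)).imp ((fMem (Mult f) (tPow (X 0) (X 1))).iff
      (fLt (X 1) (tF f (X 0))).not))
    (fun v => by
      simp only [BoundedFormula.realize_iff, BoundedFormula.realize_imp,
        BoundedFormula.realize_not, re_lt, re_mem, ev_X, ev_tF, ev_tPow, n_lt, n_F, n_mem, n_pow]
      exact fun hv => pow_mem_mult f hv _) ![p, x, x]
  simp only [BoundedFormula.realize_iff, BoundedFormula.realize_imp,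
    BoundedFormula.realize_not, re_lt, re_mem, ev_X, ev_tF, ev_tPow] at h3
  exact h3 hp

end Facts

section Def

variable {M : Type w} [Full.Structure M]

lemma definable_star (A : Set ℕ+) : Set.Definable₁ (Set.univ : Set M) Full (star M A) := by
  unfold Set.Definable₁
  rw [Set.definable_iff_exists_formula_sum]
  refine ⟨(rel1 A).formula₁ (Term.var (Sum.inr 0)), ?_⟩
  ext v
  simp only [Set.mem_ofPred_eq, Formula.realize_rel₁]
  exact Iff.rfl

lemma definable_lt (f : ℕ+ → ℕ+) (p : M) :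
    Set.Definable₁ (Set.univ : Set M) Full {x | lt M x (starF M f p)} := by
  unfold Set.Definable₁
  rw [Set.definable_iff_exists_formula_sum]
  refine ⟨relLt.formula₂ (Term.var (Sum.inr 0)) ((fn1 f).apply₁ (Term.var (Sum.inl ⟨p, trivial⟩))),
    ?_⟩
  ext v
  simp only [Set.mem_ofPred_eq, Formula.realize_rel₂, Term.realize_functions_apply₁]
  exact Iff.rfl

lemma definable_le (f : ℕ+ → ℕ+) (p : M) :
    Set.Definable₁ (Set.univ : Set M) Full {x | ¬ lt M x (starF M f p)} :=
  (definable_lt f p).compl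

end Def

end Pool.Agent.R475.EPB
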